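import Mathlib

/-!
# Threshold for large subsets avoiding bad triangles in Hilbert space

We determine completely for which `δ > 0` the property `P δ` holds: it holds if and only if
`1 ≤ δ`. In particular `δ* = 1`, and the supremum is not attained: `P 1` holds.
-/

open Finset

namespace Pool.Agent.Results.MP_8cfbc5_co.FullAnswer

/-- The real Hilbert space `ℓ²`. -/
abbrev H : Type := lp (fun _ : ℕ => ℝ) 2

/-- Three points of `ℓ²` form a bad triangle (for `δ`) if two of the three distances are `≤ 1`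
and the remaining one is `≥ 1 + δ`. -/
def BadTriangle (δ : ℝ) (x y z : H) : Prop :=
  (dist x y ≤ 1 ∧ dist y z ≤ 1 ∧ 1 + δ ≤ dist x z) ∨
  (dist x y ≤ 1 ∧ dist x z ≤ 1 ∧ 1 + δ ≤ dist y z) ∨
  (dist x z ≤ 1 ∧ dist y z ≤ 1 ∧ 1 + δ ≤ dist x y)

/-- Property `P δ`: there is `lam > 0` such that for all `n ≥ 1` and all `x₁, …, xₙ ∈ ℓ²` there is
a set `I` of at least `lam * n` indices such that no three distinct indices in `I` give a bad
triangle. -/
def P (δ : ℝ) : Prop :=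
  ∃ lam : ℝ, 0 < lam ∧ ∀ n : ℕ, 1 ≤ n → ∀ x : Fin n → H,
    ∃ I : Finset (Fin n), lam * (n : ℝ) ≤ (I.card : ℝ) ∧
      ∀ i ∈ I, ∀ j ∈ I, ∀ k ∈ I, i ≠ j → j ≠ k → i ≠ k → ¬ BadTriangle δ (x i) (x j) (x k)

/-! ## Concentration of measure in product spaces (Efron-Stein) -/

theorem two_sum_sub {α : Type} [Fintype α] (h : α → ℝ) :
    2 * ((Fintype.card α : ℝ) * ∑ a, h a ^ 2 - (∑ a, h a) ^ 2) = ∑ a, ∑ b, (h a - h b) ^ 2 := by
  have h1 : ∑ a, ∑ b, (h a - h b) ^ 2 = ∑ a : α, ∑ b : α, (h a ^ 2 - 2 * (h a * h b) + h b ^ 2) := by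
    refine Finset.sum_congr rfl fun a _ => Finset.sum_congr rfl fun b _ => by ring
  rw [h1]
  simp only [Finset.sum_add_distrib, Finset.sum_sub_distrib, ← Finset.mul_sum, Finset.sum_const,
    Finset.card_univ, nsmul_eq_mul, ← Finset.sum_mul]
  ring

theorem osc_bound {α : Type} [Fintype α] (h : α → ℝ) (M : ℝ) (hM : ∀ a b, |h a - h b| ≤ M) :
    (Fintype.card α : ℝ) * ∑ a, h a ^ 2 - (∑ a, h a) ^ 2 ≤ 1 / 2 * M ^ 2 * (Fintype.card α : ℝ) ^ 2 := by
  have h1 := two_sum_sub h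
  have h2 : ∑ a, ∑ b, (h a - h b) ^ 2 ≤ ∑ a : α, ∑ b : α, M ^ 2 := by
    refine Finset.sum_le_sum fun a _ => Finset.sum_le_sum fun b _ => ?_
    have := hM a b
    rw [← sq_abs]
    exact pow_le_pow_left₀ (abs_nonneg _) this 2
  simp only [Finset.sum_const, Finset.card_univ, nsmul_eq_mul] at h2
  nlinarith

theorem var_bound {Ω : Type} [Fintype Ω] [DecidableEq Ω] (N : ℕ) :
    ∀ (F : (Fin N → Ω) → ℝ), (∀ x y, |F x - F y| ≤ hammingDist x y) →
    (Fintype.card (Fin N → Ω) : ℝ) * ∑ x, F x ^ 2 - (∑ x, F x) ^ 2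
      ≤ N / 2 * (Fintype.card (Fin N → Ω) : ℝ) ^ 2 := by
  induction N with
  | zero =>
    intro F _
    simp
  | succ N ih =>
    intro F hF
    have hsum : ∀ G : (Fin (N + 1) → Ω) → ℝ,
        ∑ x, G x = ∑ a : Ω, ∑ x' : Fin N → Ω, G (Fin.cons a x') := by
      intro G
      rw [← (Fin.consEquiv (fun _ => Ω)).sum_comp, Fintype.sum_prod_type]
      rfl
    have hcard : (Fintype.card (Fin (N + 1) → Ω) : ℝ)
        = (Fintype.card Ω : ℝ) * (Fintype.card (Fin N → Ω) : ℝ) := by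
      simp [pow_succ, mul_comm]
    rw [hsum, hsum, hcard]
    set K : ℝ := (Fintype.card Ω : ℝ) with hK
    set M : ℝ := (Fintype.card (Fin N → Ω) : ℝ) with hM
    have hcons : ∀ (a b : Ω) (x y : Fin N → Ω),
        (hammingDist (Fin.cons a x : Fin (N + 1) → Ω) (Fin.cons b y) : ℕ)
          = (if a = b then 0 else 1) + hammingDist x y := by
      intro a b x y
      unfold hammingDist
      rw [Finset.card_filter, Fin.sum_univ_succ, Finset.card_filter]
      simp only [Fin.cons_zero, Fin.cons_succ, ne_eq, ite_not]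
    have h1 : ∀ a : Ω, M * ∑ x' : Fin N → Ω, F (Fin.cons a x') ^ 2
        - (∑ x' : Fin N → Ω, F (Fin.cons a x')) ^ 2 ≤ N / 2 * M ^ 2 := by
      intro a
      refine ih (fun x' => F (Fin.cons a x')) fun x y => ?_
      have := hF (Fin.cons a x) (Fin.cons a y)
      rw [hcons] at this
      simpa using this
    have h2 : K * ∑ a : Ω, (∑ x' : Fin N → Ω, F (Fin.cons a x')) ^ 2
        - (∑ a : Ω, ∑ x' : Fin N → Ω, F (Fin.cons a x')) ^ 2 ≤ 1 / 2 * M ^ 2 * K ^ 2 := by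
      refine osc_bound (fun a => ∑ x' : Fin N → Ω, F (Fin.cons a x')) M fun a b => ?_
      rw [← Finset.sum_sub_distrib]
      refine (Finset.abs_sum_le_sum_abs _ _).trans ?_
      have : ∑ x' : Fin N → Ω, |F (Fin.cons a x') - F (Fin.cons b x')| ≤ ∑ x' : Fin N → Ω, (1 : ℝ) := by
        refine Finset.sum_le_sum fun x _ => ?_
        have := hF (Fin.cons a x) (Fin.cons b x)
        rw [hcons] at this
        refine this.trans ?_
        rw [hammingDist_self]
        split_ifs <;> simp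
      refine this.trans ?_
      simp [hM]
    have h3 : K * M * ∑ a : Ω, ∑ x' : Fin N → Ω, F (Fin.cons a x') ^ 2
        - K * ∑ a : Ω, (∑ x' : Fin N → Ω, F (Fin.cons a x')) ^ 2 ≤ K * (K * (N / 2 * M ^ 2)) := by
      have : ∑ a : Ω, (M * ∑ x' : Fin N → Ω, F (Fin.cons a x') ^ 2
        - (∑ x' : Fin N → Ω, F (Fin.cons a x')) ^ 2) ≤ ∑ a : Ω, N / 2 * M ^ 2 :=
        Finset.sum_le_sum fun a _ => h1 a
      rw [Finset.sum_sub_distrib, ← Finset.mul_sum, Finset.sum_const, Finset.card_univ,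
        nsmul_eq_mul, ← hK] at this
      have hK0 : 0 ≤ K := by positivity
      nlinarith [mul_le_mul_of_nonneg_left this hK0]
    push_cast
    nlinarith

/-- In a dense subset of a product space, few points are far (in Hamming distance) from the set. -/
theorem blowup {Ω : Type} [Fintype Ω] [DecidableEq Ω] [Nonempty Ω] (N : ℕ) (hN : 0 < N)
    (S : Finset (Fin N → Ω)) (lam : ℝ) (hlam : 0 < lam)
    (hS : lam * (Fintype.card (Fin N → Ω) : ℝ) ≤ S.card) (r : ℝ)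
    (hr : r = Real.sqrt (N / (2 * lam)) + Real.sqrt (2 * N)) :
    ∃ T : Finset (Fin N → Ω), 4 * T.card ≤ Fintype.card (Fin N → Ω) ∧
      ∀ x, x ∉ T → ∃ y ∈ S, (hammingDist x y : ℝ) < r := by
  classical
  set C : ℝ := (Fintype.card (Fin N → Ω) : ℝ) with hC
  have hCpos : 0 < C := by
    rw [hC]; exact_mod_cast Fintype.card_pos
  have hSne : S.Nonempty := by
    rw [← Finset.card_pos]
    have : (0 : ℝ) < S.card := lt_of_lt_of_le (by positivity) hS
    exact_mod_cast this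
  set F : (Fin N → Ω) → ℝ := fun x => ((S.inf' hSne (fun y => hammingDist x y) : ℕ) : ℝ) with hF
  have hFle : ∀ x, ∀ y ∈ S, F x ≤ hammingDist x y := by
    intro x y hy
    simp only [hF]
    exact_mod_cast Finset.inf'_le _ hy
  have hFex : ∀ x, ∃ y ∈ S, F x = hammingDist x y := by
    intro x
    obtain ⟨y, hy, h⟩ := Finset.exists_mem_eq_inf' hSne (fun y => hammingDist x y)
    exact ⟨y, hy, by simp only [hF]; exact_mod_cast h⟩
  have hLip1 : ∀ x y, F x ≤ F y + hammingDist x y := by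
    intro x y
    obtain ⟨z, hz, h⟩ := hFex y
    rw [h]
    refine (hFle x z hz).trans ?_
    have := hammingDist_triangle x y z
    have h2 : (hammingDist x z : ℝ) ≤ hammingDist x y + hammingDist y z := by exact_mod_cast this
    linarith
  have hLip : ∀ x y, |F x - F y| ≤ hammingDist x y := by
    intro x y
    rw [abs_le]
    constructor
    · have := hLip1 y x
      rw [hammingDist_comm] at this
      linarith
    · linarith [hLip1 x y]
  have hV := var_bound N F hLip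
  rw [← hC] at hV
  have hF0 : ∀ x, 0 ≤ F x := fun x => by simp only [hF]; positivity
  set μ : ℝ := (∑ x, F x) / C with hμ
  have hμ0 : 0 ≤ μ := div_nonneg (Finset.sum_nonneg fun x _ => hF0 x) hCpos.le
  have hsumμ : ∑ x, F x = C * μ := by rw [hμ]; field_simp
  have hvar : ∑ x, (F x - μ) ^ 2 ≤ N / 2 * C := by
    have h1 : ∑ x, (F x - μ) ^ 2 = ∑ x, F x ^ 2 - C * μ ^ 2 := by
      have : ∀ x, (F x - μ) ^ 2 = F x ^ 2 - 2 * μ * F x + μ ^ 2 := fun x => by ring
      simp only [this, Finset.sum_add_distrib, Finset.sum_sub_distrib, ← Finset.mul_sum,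
        Finset.sum_const, Finset.card_univ, nsmul_eq_mul, ← hC, hsumμ]
      ring
    rw [h1]
    rw [hsumμ] at hV
    have h2 : C * (∑ x, F x ^ 2 - C * μ ^ 2) ≤ C * (N / 2 * C) := by nlinarith
    exact le_of_mul_le_mul_left h2 hCpos
  have hμle : μ ≤ Real.sqrt (N / (2 * lam)) := by
    apply Real.le_sqrt_of_sq_le
    have h1 : ∑ x ∈ S, (F x - μ) ^ 2 ≤ N / 2 * C :=
      (Finset.sum_le_sum_of_subset_of_nonneg (Finset.subset_univ _)
        (fun x _ _ => sq_nonneg _)).trans hvar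
    have h2 : ∑ x ∈ S, (F x - μ) ^ 2 = S.card * μ ^ 2 := by
      rw [← nsmul_eq_mul, ← Finset.sum_const]
      refine Finset.sum_congr rfl fun x hx => ?_
      have : F x = 0 := le_antisymm (by have := hFle x x hx; simpa using this) (hF0 x)
      rw [this]; ring
    rw [h2] at h1
    rw [le_div_iff₀ (by positivity)]
    have h3 : lam * C * μ ^ 2 ≤ N / 2 * C :=
      (mul_le_mul_of_nonneg_right hS (sq_nonneg μ)).trans h1
    have h4 : C * (μ ^ 2 * (2 * lam)) ≤ C * N := by nlinarith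
    exact le_of_mul_le_mul_left h4 hCpos
  refine ⟨Finset.univ.filter fun x => r ≤ F x, ?_, ?_⟩
  · set T := Finset.univ.filter fun x => r ≤ F x with hT
    have h1 : ∑ x ∈ T, (F x - μ) ^ 2 ≤ N / 2 * C :=
      (Finset.sum_le_sum_of_subset_of_nonneg (Finset.subset_univ _)
        (fun x _ _ => sq_nonneg _)).trans hvar
    have h2 : ∑ x ∈ T, (2 * (N : ℝ)) ≤ ∑ x ∈ T, (F x - μ) ^ 2 := by
      refine Finset.sum_le_sum fun x hx => ?_
      have hx' : r ≤ F x := by simpa [hT] using hx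
      have h3 : Real.sqrt (2 * N) ≤ F x - μ := by linarith
      have h4 : (Real.sqrt (2 * N)) ^ 2 = 2 * N := Real.sq_sqrt (by positivity)
      rw [← h4]
      exact pow_le_pow_left₀ (Real.sqrt_nonneg _) h3 2
    rw [Finset.sum_const, nsmul_eq_mul] at h2
    have hN' : (0 : ℝ) < N := by exact_mod_cast hN
    have h5 : (N : ℝ) * (4 * T.card) ≤ N * C := by nlinarith
    have h6 := le_of_mul_le_mul_left h5 hN'
    rw [hC] at h6
    exact_mod_cast h6
  · intro x hx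
    obtain ⟨y, hy, h⟩ := hFex x
    refine ⟨y, hy, ?_⟩
    rw [← h]
    simpa using hx

/-! ## Points on a product of circles -/

theorem exists_q (δ : ℝ) (hδ : δ < 1) : ∃ q : ℕ, ∃ _ : NeZero q,
    (ZMod.toCircle (1 : ZMod q) : ℂ) ≠ 1 ∧ 1 + δ < ‖(ZMod.toCircle (1 : ZMod q) : ℂ) + 1‖ := by
  have h1 : Filter.Tendsto (fun m : ℕ => ‖Complex.exp (2 * Real.pi * Complex.I / (m : ℂ)) + 1‖)
      Filter.atTop (nhds ‖Complex.exp 0 + 1‖) := by
    apply Filter.Tendsto.norm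
    apply Filter.Tendsto.add_const
    apply (Complex.continuous_exp.tendsto 0).comp
    exact tendsto_const_div_atTop_nhds_zero_nat _
  have h2 : (1 + δ : ℝ) < ‖Complex.exp 0 + 1‖ := by
    rw [Complex.exp_zero]
    norm_num
    linarith
  obtain ⟨m, hm, hm2⟩ := ((h1.eventually (lt_mem_nhds h2)).and (Filter.eventually_ge_atTop 2)).exists
  have hne : NeZero m := ⟨by omega⟩
  refine ⟨m, hne, ?_, ?_⟩
  · have := Fact.mk (show 1 < m by omega)
    intro h
    have h3 : (ZMod.toCircle (1 : ZMod m)) = ZMod.toCircle (0 : ZMod m) := by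
      rw [AddChar.map_zero_eq_one]
      exact Subtype.ext h
    exact one_ne_zero (ZMod.injective_toCircle h3)
  · have h4 := ZMod.toCircle_natCast (N := m) 1
    rw [Nat.cast_one] at h4
    rw [h4]
    simpa using hm

/-- points on a product of circles -/
noncomputable def pt {q : ℕ} [NeZero q] (N : ℕ) (κ : ℝ) (x : Fin N → ZMod q) :
    EuclideanSpace ℂ (Fin N) :=
  WithLp.toLp 2 (fun j => (κ : ℂ) * (ZMod.toCircle (x j) : ℂ))

theorem dist_pt_sq {q : ℕ} [NeZero q] (N : ℕ) (κ : ℝ) (x y : Fin N → ZMod q) :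
    dist (pt N κ x) (pt N κ y) ^ 2
      = ∑ j, κ ^ 2 * ‖(ZMod.toCircle (x j) : ℂ) - (ZMod.toCircle (y j) : ℂ)‖ ^ 2 := by
  rw [EuclideanSpace.dist_sq_eq]
  refine Finset.sum_congr rfl fun j _ => ?_
  rw [dist_eq_norm]
  simp only [pt]
  rw [← mul_sub, norm_mul, mul_pow]
  simp

theorem dist_pt_shift {q : ℕ} [NeZero q] (N : ℕ) (κ : ℝ) (hκ : 0 ≤ κ) (v : Fin N → ZMod q)
    (a b : ZMod q) :
    dist (pt N κ (fun j => v j + a)) (pt N κ (fun j => v j + b))
      = κ * Real.sqrt N * ‖(ZMod.toCircle a : ℂ) - (ZMod.toCircle b : ℂ)‖ := by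
  have h : dist (pt N κ (fun j => v j + a)) (pt N κ (fun j => v j + b)) ^ 2
      = (κ * Real.sqrt N * ‖(ZMod.toCircle a : ℂ) - (ZMod.toCircle b : ℂ)‖) ^ 2 := by
    rw [dist_pt_sq]
    have : ∀ j : Fin N, κ ^ 2 * ‖(ZMod.toCircle (v j + a) : ℂ) - (ZMod.toCircle (v j + b) : ℂ)‖ ^ 2
        = κ ^ 2 * ‖(ZMod.toCircle a : ℂ) - (ZMod.toCircle b : ℂ)‖ ^ 2 := by
      intro j
      rw [AddChar.map_add_eq_mul, AddChar.map_add_eq_mul, Circle.coe_mul, Circle.coe_mul, ← mul_sub,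
        norm_mul, Circle.norm_coe, one_mul]
    simp only [this, Finset.sum_const, Finset.card_univ, Fintype.card_fin, nsmul_eq_mul]
    rw [mul_pow, mul_pow, Real.sq_sqrt (by positivity)]
    ring
  exact (pow_left_inj₀ dist_nonneg (by positivity) two_ne_zero).1 h

theorem dist_pt_le {q : ℕ} [NeZero q] (N : ℕ) (κ : ℝ) (x y : Fin N → ZMod q) :
    dist (pt N κ x) (pt N κ y) ^ 2 ≤ 4 * κ ^ 2 * hammingDist x y := by
  rw [dist_pt_sq]
  unfold hammingDist
  rw [Finset.card_filter]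
  push_cast
  rw [Finset.mul_sum]
  refine Finset.sum_le_sum fun j _ => ?_
  by_cases h : x j = y j
  · simp [h]
  · have h1 : ‖(ZMod.toCircle (x j) : ℂ) - (ZMod.toCircle (y j) : ℂ)‖ ≤ 2 := by
      refine (norm_sub_le _ _).trans ?_
      rw [Circle.norm_coe, Circle.norm_coe]; norm_num
    have h2 : ‖(ZMod.toCircle (x j) : ℂ) - (ZMod.toCircle (y j) : ℂ)‖ ^ 2 ≤ 2 ^ 2 :=
      pow_le_pow_left₀ (norm_nonneg _) h1 2
    simp only [h, ne_eq, not_false_eq_true, if_true]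
    nlinarith [sq_nonneg κ]

/-- Every finite-dimensional Euclidean space embeds isometrically in `ℓ²`. -/
theorem exists_isometry (N : ℕ) : ∃ f : EuclideanSpace ℂ (Fin N) → lp (fun _ : ℕ => ℝ) 2,
    ∀ x y, dist (f x) (f y) = dist x y := by
  have hon : Orthonormal ℝ (fun n : ℕ => (lp.single 2 n (1 : ℝ) : lp (fun _ : ℕ => ℝ) 2)) := by
    rw [orthonormal_iff_ite]
    intro i j
    rw [lp.inner_single_left]
    rw [lp.coeFn_single]
    by_cases h : i = j
    · subst h; simp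
    · simp [h]
  set b := stdOrthonormalBasis ℝ (EuclideanSpace ℂ (Fin N)) with hb
  set d := Module.finrank ℝ (EuclideanSpace ℂ (Fin N)) with hd
  have hon' : Orthonormal ℝ (fun i : Fin d => (lp.single 2 (i : ℕ) (1 : ℝ) : lp (fun _ : ℕ => ℝ) 2)) :=
    hon.comp (fun i : Fin d => (i : ℕ)) Fin.val_injective
  refine ⟨fun x => ∑ i : Fin d, (b.repr x i) • (lp.single 2 (i : ℕ) (1 : ℝ) : lp (fun _ : ℕ => ℝ) 2), ?_⟩
  intro x y
  rw [dist_eq_norm, dist_eq_norm]
  have h1 : ∑ i : Fin d, (b.repr x i) • (lp.single 2 (i : ℕ) (1 : ℝ) : lp (fun _ : ℕ => ℝ) 2)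
      - ∑ i : Fin d, (b.repr y i) • (lp.single 2 (i : ℕ) (1 : ℝ) : lp (fun _ : ℕ => ℝ) 2)
      = ∑ i : Fin d, (b.repr (x - y) i) • (lp.single 2 (i : ℕ) (1 : ℝ) : lp (fun _ : ℕ => ℝ) 2) := by
    rw [← Finset.sum_sub_distrib]
    refine Finset.sum_congr rfl fun i _ => ?_
    rw [← sub_smul]
    simp
  rw [h1]
  have h2 : ‖∑ i : Fin d, (b.repr (x - y) i) • (lp.single 2 (i : ℕ) (1 : ℝ) : lp (fun _ : ℕ => ℝ) 2)‖ ^ 2
      = ‖x - y‖ ^ 2 := by
    rw [← real_inner_self_eq_norm_sq, hon'.inner_sum, ← b.repr.norm_map (x - y),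
      EuclideanSpace.norm_sq_eq]
    refine Finset.sum_congr rfl fun i _ => ?_
    simp [sq]
  exact (pow_left_inj₀ (norm_nonneg _) (norm_nonneg _) two_ne_zero).1 h2

/-! ## `P δ` fails for `δ < 1` -/

/-- Every dense subset of the product of circles contains a nearly degenerate bad triangle. -/
theorem main_neg (δ : ℝ) (hδ0 : 0 < δ) (hδ : δ < 1) (lam : ℝ) (hlam : 0 < lam) :
    ∃ q : ℕ, ∃ _ : NeZero q, ∃ N : ℕ, ∃ κ : ℝ, ∀ S : Finset (Fin N → ZMod q),
      lam * (Fintype.card (Fin N → ZMod q) : ℝ) ≤ S.card →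
      ∃ a ∈ S, ∃ b ∈ S, ∃ c ∈ S,
        dist (pt N κ a) (pt N κ b) ≤ 1 ∧ dist (pt N κ b) (pt N κ c) ≤ 1 ∧
          1 + δ ≤ dist (pt N κ a) (pt N κ c) := by
  obtain ⟨q, hq, hne, hρ⟩ := exists_q δ hδ
  set ζ : ℂ := (ZMod.toCircle (1 : ZMod q) : ℂ) with hζ
  set D : ℝ := ‖ζ - 1‖ with hD
  have hDpos : 0 < D := norm_pos_iff.2 (sub_ne_zero.2 hne)
  set ρ : ℝ := ‖ζ + 1‖ with hρdef
  have hρpos : 0 < 1 + ρ := by positivity
  set ε : ℝ := (ρ - 1 - δ) / (2 * (1 + ρ)) with hε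
  have hεpos : 0 < ε := by
    rw [hε]; apply div_pos <;> linarith
  have hε1 : 2 * ε * (1 + ρ) = ρ - 1 - δ := by
    rw [hε]; field_simp
  have hε2 : 2 * ε < 1 := by
    by_contra h
    push Not at h
    nlinarith
  set c : ℝ := Real.sqrt (1 / (2 * lam)) + Real.sqrt 2 with hc
  have hcpos : 0 < c := by positivity
  obtain ⟨M, hM⟩ := exists_nat_ge ((4 * c / (D ^ 2 * ε ^ 2)) ^ 2)
  set N : ℕ := M + 1 with hN
  have hNpos : (0 : ℝ) < N := by rw [hN]; positivity
  have hNge : 4 * c / (D ^ 2 * ε ^ 2) ≤ Real.sqrt N := by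
    apply Real.le_sqrt_of_sq_le
    refine hM.trans ?_
    rw [hN]; push_cast; linarith
  have hsN : 0 < Real.sqrt N := Real.sqrt_pos.2 hNpos
  set κ : ℝ := (1 - 2 * ε) / (Real.sqrt N * D) with hκ
  have hκ0 : 0 ≤ κ := by rw [hκ]; apply div_nonneg <;> [linarith; positivity]
  have hκN : κ * Real.sqrt N * D = 1 - 2 * ε := by
    rw [hκ]; field_simp
  refine ⟨q, hq, N, κ, ?_⟩
  intro S hS
  set r : ℝ := Real.sqrt (N / (2 * lam)) + Real.sqrt (2 * N) with hr
  have hrc : r = Real.sqrt N * c := by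
    rw [hr, hc, mul_add, ← Real.sqrt_mul (by positivity), ← Real.sqrt_mul (by positivity)]
    congr 2
    · ring
    · ring
  -- perturbation estimate
  have hpert : ∀ x y : Fin N → ZMod q, (hammingDist x y : ℝ) < r →
      dist (pt N κ x) (pt N κ y) ≤ ε := by
    intro x y hxy
    have h1 := dist_pt_le N κ x y
    have h2 : dist (pt N κ x) (pt N κ y) ^ 2 ≤ ε ^ 2 := by
      refine h1.trans ?_
      have h3 : 4 * κ ^ 2 * (hammingDist x y : ℝ) ≤ 4 * κ ^ 2 * r :=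
        mul_le_mul_of_nonneg_left hxy.le (by positivity)
      refine h3.trans ?_
      have h4 : κ ^ 2 * (N * D ^ 2) ≤ 1 := by
        have h5 : κ ^ 2 * (N * D ^ 2) = (κ * Real.sqrt N * D) ^ 2 := by
          rw [mul_pow, mul_pow, Real.sq_sqrt hNpos.le]; ring
        rw [h5, hκN]
        nlinarith
      have h6 : 4 * c ≤ Real.sqrt N * (D ^ 2 * ε ^ 2) := by
        rwa [div_le_iff₀ (by positivity)] at hNge
      have h7 : (N : ℝ) = Real.sqrt N * Real.sqrt N := (Real.mul_self_sqrt hNpos.le).symm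
      have h8 : 4 * κ ^ 2 * r = κ ^ 2 * Real.sqrt N * (4 * c) := by rw [hrc]; ring
      rw [h8]
      calc κ ^ 2 * Real.sqrt N * (4 * c)
          ≤ κ ^ 2 * Real.sqrt N * (Real.sqrt N * (D ^ 2 * ε ^ 2)) :=
            mul_le_mul_of_nonneg_left h6 (by positivity)
        _ = (κ ^ 2 * ((Real.sqrt N * Real.sqrt N) * D ^ 2)) * ε ^ 2 := by ring
        _ = (κ ^ 2 * (N * D ^ 2)) * ε ^ 2 := by rw [← h7]
        _ ≤ 1 * ε ^ 2 := mul_le_mul_of_nonneg_right h4 (by positivity)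
        _ = ε ^ 2 := one_mul _
    exact (sq_le_sq₀ dist_nonneg hεpos.le).1 h2
  obtain ⟨T, hT4, hT⟩ := blowup N (by omega) S lam hlam hS r hr
  -- choose a good translate
  have hex : ∃ v : Fin N → ZMod q, (fun j => v j + 1) ∉ T ∧ (fun j => v j + 0) ∉ T ∧
      (fun j => v j + (-1)) ∉ T := by
    by_contra hcon
    push Not at hcon
    have hsub : (Finset.univ : Finset (Fin N → ZMod q)) ⊆
        (T.image (fun x j => x j - 1)) ∪ T ∪ (T.image (fun x j => x j + 1)) := by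
      intro v _
      rw [Finset.mem_union, Finset.mem_union, Finset.mem_image, Finset.mem_image]
      by_cases h1 : (fun j => v j + 1) ∈ T
      · exact Or.inl (Or.inl ⟨_, h1, by ext j; simp⟩)
      · by_cases h2 : (fun j => v j + 0) ∈ T
        · exact Or.inl (Or.inr (by simpa using h2))
        · exact Or.inr ⟨_, hcon v h1 h2, by ext j; simp⟩
    have h1 := Finset.card_le_card hsub
    rw [Finset.card_univ] at h1
    have h2 := Finset.card_union_le ((T.image (fun x j => x j - 1)) ∪ T)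
      (T.image (fun x j => x j + 1))
    have h3 := Finset.card_union_le (T.image (fun x j => x j - 1)) T
    have h4 : (T.image (fun x j => x j - 1)).card ≤ T.card := Finset.card_image_le
    have h5 : (T.image (fun x j => x j + 1)).card ≤ T.card := Finset.card_image_le
    have h6 : 0 < Fintype.card (Fin N → ZMod q) := Fintype.card_pos
    omega
  obtain ⟨v, hv1, hv2, hv3⟩ := hex
  obtain ⟨a, haS, ha⟩ := hT _ hv1
  obtain ⟨b, hbS, hb⟩ := hT _ hv2
  obtain ⟨c', hcS, hc'⟩ := hT _ hv3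
  refine ⟨a, haS, b, hbS, c', hcS, ?_⟩
  have ea := hpert _ _ ha
  have eb := hpert _ _ hb
  have ec := hpert _ _ hc'
  have dab := dist_pt_shift N κ hκ0 v 1 0
  have dbc := dist_pt_shift N κ hκ0 v 0 (-1)
  have dac := dist_pt_shift N κ hκ0 v 1 (-1)
  have hinv : (ZMod.toCircle (-1 : ZMod q) : ℂ) * ζ = 1 := by
    rw [hζ, ← Circle.coe_mul, ← AddChar.map_add_eq_mul]
    simp
  have hnorm : ‖(ZMod.toCircle (-1 : ZMod q) : ℂ)‖ = 1 := Circle.norm_coe _
  have e1 : ‖(ZMod.toCircle (1 : ZMod q) : ℂ) - (ZMod.toCircle (0 : ZMod q) : ℂ)‖ = D := by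
    rw [AddChar.map_zero_eq_one, Circle.coe_one]
  have e2 : ‖(ZMod.toCircle (0 : ZMod q) : ℂ) - (ZMod.toCircle (-1 : ZMod q) : ℂ)‖ = D := by
    rw [AddChar.map_zero_eq_one, Circle.coe_one]
    have : (1 : ℂ) - (ZMod.toCircle (-1 : ZMod q) : ℂ)
        = (ZMod.toCircle (-1 : ZMod q) : ℂ) * (ζ - 1) := by
      rw [mul_sub, hinv, mul_one]
    rw [this, norm_mul, hnorm, one_mul]
  have e3 : ‖(ZMod.toCircle (1 : ZMod q) : ℂ) - (ZMod.toCircle (-1 : ZMod q) : ℂ)‖ = D * ρ := by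
    have : (ZMod.toCircle (1 : ZMod q) : ℂ) - (ZMod.toCircle (-1 : ZMod q) : ℂ)
        = (ZMod.toCircle (-1 : ZMod q) : ℂ) * ((ζ - 1) * (ζ + 1)) := by
      have h : (ZMod.toCircle (-1 : ZMod q) : ℂ) * ((ζ - 1) * (ζ + 1))
          = ((ZMod.toCircle (-1 : ZMod q) : ℂ) * ζ) * ζ - (ZMod.toCircle (-1 : ZMod q) : ℂ) := by
        ring
      rw [h, hinv, one_mul]
    rw [this, norm_mul, norm_mul, hnorm, one_mul]
  rw [e1, hκN] at dab
  rw [e2, hκN] at dbc
  rw [e3, ← mul_assoc, hκN] at dac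
  have hfinal : (1 - 2 * ε) * ρ = 1 + δ + 2 * ε := by linear_combination (-1) * hε1
  rw [hfinal] at dac
  refine ⟨?_, ?_, ?_⟩
  · have t1 := dist_triangle (pt N κ a) (pt N κ fun j => v j + 1) (pt N κ b)
    have t2 := dist_triangle (pt N κ fun j => v j + 1) (pt N κ fun j => v j + 0) (pt N κ b)
    rw [dist_comm] at ea
    linarith
  · have t1 := dist_triangle (pt N κ b) (pt N κ fun j => v j + 0) (pt N κ c')
    have t2 := dist_triangle (pt N κ fun j => v j + 0) (pt N κ fun j => v j + (-1)) (pt N κ c')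
    rw [dist_comm] at eb
    linarith
  · have t1 := dist_triangle (pt N κ fun j => v j + 1) (pt N κ a) (pt N κ fun j => v j + (-1))
    have t2 := dist_triangle (pt N κ a) (pt N κ c') (pt N κ fun j => v j + (-1))
    rw [dist_comm] at ec
    linarith

theorem not_P_of_lt (δ : ℝ) (hδ0 : 0 < δ) (hδ : δ < 1) : ¬ P δ := by
  rintro ⟨lam, hlam, hP⟩
  obtain ⟨q, hq, N, κ, hmain⟩ := main_neg δ hδ0 hδ lam hlam
  obtain ⟨f, hf⟩ := exists_isometry N
  set e := Fintype.equivFin (Fin N → ZMod q) with he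
  have hcard : 1 ≤ Fintype.card (Fin N → ZMod q) := Fintype.card_pos
  obtain ⟨I, hI, hbad⟩ := hP (Fintype.card (Fin N → ZMod q)) hcard
    (fun i => f (pt N κ (e.symm i)))
  have hS : lam * (Fintype.card (Fin N → ZMod q) : ℝ) ≤ (I.map e.symm.toEmbedding).card := by
    rw [Finset.card_map]; exact hI
  obtain ⟨a, ha, b, hb, c, hc, hab, hbc, hac⟩ := hmain _ hS
  have mem : ∀ a, a ∈ I.map e.symm.toEmbedding → e a ∈ I := by
    intro a ha
    rw [Finset.mem_map] at ha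
    obtain ⟨i, hi, rfl⟩ := ha
    simpa using hi
  have h1 : e a ≠ e b := by
    intro h
    have h' := e.injective h
    rw [h'] at hac
    linarith
  have h2 : e b ≠ e c := by
    intro h
    have h' := e.injective h
    rw [← h'] at hac
    linarith
  have h3 : e a ≠ e c := by
    intro h
    have h' := e.injective h
    rw [← h', dist_self] at hac
    linarith
  refine hbad (e a) (mem a ha) (e b) (mem b hb) (e c) (mem c hc) h1 h2 h3 (Or.inl ?_)
  simp only [hf, Equiv.symm_apply_apply]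
  exact ⟨hab, hbc, hac⟩

/-! ## `P δ` holds for `δ ≥ 1` -/

/-- A bad triangle for `δ ≥ 1` is an arithmetic progression with difference of norm one. -/
theorem bad_identity (δ : ℝ) (hδ : 1 ≤ δ) (a b c : H) (hab : dist a b ≤ 1) (hbc : dist b c ≤ 1)
    (hac : 1 + δ ≤ dist a c) : ‖a‖ ^ 2 + ‖c‖ ^ 2 - 2 * ‖b‖ ^ 2 = 2 := by
  set u : H := a - b with hu
  set w : H := c - b with hw
  have hu1 : ‖u‖ ≤ 1 := by rw [hu, ← dist_eq_norm]; exact hab
  have hw1 : ‖w‖ ≤ 1 := by rw [hw, ← dist_eq_norm, dist_comm]; exact hbc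
  have huw : 2 ≤ ‖u - w‖ := by
    have : u - w = a - c := by rw [hu, hw]; abel
    rw [this, ← dist_eq_norm]; linarith
  have hpar := parallelogram_law_with_norm ℝ u w
  have hsum : ‖u + w‖ = 0 := by
    have h0 := norm_nonneg (u + w)
    have h1 := norm_nonneg u
    have h2 := norm_nonneg w
    nlinarith
  have hsum' : u + w = 0 := norm_eq_zero.1 hsum
  have hw' : w = -u := by rw [← sub_eq_zero, sub_neg_eq_add, add_comm]; exact hsum'
  have hu2 : ‖u‖ = 1 := by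
    rw [hw', sub_neg_eq_add] at huw
    have : ‖u + u‖ ≤ ‖u‖ + ‖u‖ := norm_add_le _ _
    linarith
  have ha : a = b + u := by rw [hu]; abel
  have hc : c = b - u := by
    have : c = b + w := by rw [hw]; abel
    rw [this, hw']; abel
  have hpar2 := parallelogram_law_with_norm ℝ b u
  rw [ha, hc]
  rw [hu2] at hpar2
  nlinarith

theorem P_of_one_le (δ : ℝ) (hδ : 1 ≤ δ) : P δ := by
  refine ⟨1 / 4, by norm_num, ?_⟩
  intro n _ x
  -- colour index `i` by the residue of `⌊‖x i‖²⌋` modulo 4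
  have hpig : ∃ t : ZMod 4, (n : ℝ) ≤
      4 * ((Finset.univ.filter fun i : Fin n => ((⌊‖x i‖ ^ 2⌋ : ℤ) : ZMod 4) = t).card : ℝ) := by
    by_contra hcon
    push Not at hcon
    have hsum : ∑ t : ZMod 4,
        ((Finset.univ.filter fun i : Fin n => ((⌊‖x i‖ ^ 2⌋ : ℤ) : ZMod 4) = t).card : ℝ) = n := by
      have := Finset.card_eq_sum_card_fiberwise (s := (Finset.univ : Finset (Fin n)))
        (t := (Finset.univ : Finset (ZMod 4))) (f := fun i => ((⌊‖x i‖ ^ 2⌋ : ℤ) : ZMod 4))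
        (by intro i _; simp)
      rw [Finset.card_univ, Fintype.card_fin] at this
      conv_rhs => rw [this]
      push_cast
      rfl
    have h4 : ∑ t : ZMod 4, (n : ℝ) / 4 = n := by
      rw [Finset.sum_const, Finset.card_univ, ZMod.card, nsmul_eq_mul]
      push_cast; ring
    have : ∑ t : ZMod 4,
        ((Finset.univ.filter fun i : Fin n => ((⌊‖x i‖ ^ 2⌋ : ℤ) : ZMod 4) = t).card : ℝ)
        < ∑ t : ZMod 4, (n : ℝ) / 4 := by
      refine Finset.sum_lt_sum_of_nonempty Finset.univ_nonempty fun t _ => ?_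
      have := hcon t
      linarith
    linarith
  obtain ⟨t, ht⟩ := hpig
  refine ⟨Finset.univ.filter fun i : Fin n => ((⌊‖x i‖ ^ 2⌋ : ℤ) : ZMod 4) = t, by linarith, ?_⟩
  -- no bad triangle inside a colour class
  have key : ∀ a b c : H, ((⌊‖a‖ ^ 2⌋ : ℤ) : ZMod 4) = t → ((⌊‖b‖ ^ 2⌋ : ℤ) : ZMod 4) = t →
      ((⌊‖c‖ ^ 2⌋ : ℤ) : ZMod 4) = t →
      ¬ (dist a b ≤ 1 ∧ dist b c ≤ 1 ∧ 1 + δ ≤ dist a c) := by
    rintro a b c ha hb hc ⟨hab, hbc, hac⟩
    have hid := bad_identity δ hδ a b c hab hbc hac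
    have hab' : ((⌊‖a‖ ^ 2⌋ - ⌊‖b‖ ^ 2⌋ : ℤ) : ZMod 4) = 0 := by
      push_cast; rw [ha, hb, sub_self]
    have hcb' : ((⌊‖c‖ ^ 2⌋ - ⌊‖b‖ ^ 2⌋ : ℤ) : ZMod 4) = 0 := by
      push_cast; rw [hc, hb, sub_self]
    rw [ZMod.intCast_zmod_eq_zero_iff_dvd] at hab' hcb'
    obtain ⟨k, hk⟩ := hab'
    obtain ⟨l, hl⟩ := hcb'
    have fa1 := Int.floor_le (‖a‖ ^ 2)
    have fa2 := Int.lt_floor_add_one (‖a‖ ^ 2)
    have fb1 := Int.floor_le (‖b‖ ^ 2)
    have fb2 := Int.lt_floor_add_one (‖b‖ ^ 2)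
    have fc1 := Int.floor_le (‖c‖ ^ 2)
    have fc2 := Int.lt_floor_add_one (‖c‖ ^ 2)
    have hk' : ((⌊‖a‖ ^ 2⌋ : ℤ) : ℝ) - ((⌊‖b‖ ^ 2⌋ : ℤ) : ℝ) = 4 * (k : ℝ) := by
      exact_mod_cast hk
    have hl' : ((⌊‖c‖ ^ 2⌋ : ℤ) : ℝ) - ((⌊‖b‖ ^ 2⌋ : ℤ) : ℝ) = 4 * (l : ℝ) := by
      exact_mod_cast hl
    have h1 : (0 : ℝ) < 4 * ((k + l : ℤ) : ℝ) := by push_cast; linarith
    have h2 : 4 * ((k + l : ℤ) : ℝ) < 4 := by push_cast; linarith
    have h3 : 0 < k + l := by
      have : (0 : ℝ) < ((k + l : ℤ) : ℝ) := by linarith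
      exact_mod_cast this
    have h4 : k + l < 1 := by
      have : ((k + l : ℤ) : ℝ) < 1 := by linarith
      exact_mod_cast this
    omega
  intro i hi j hj k hk _ _ _ hbad
  simp only [Finset.mem_filter, Finset.mem_univ, true_and] at hi hj hk
  rcases hbad with ⟨h1, h2, h3⟩ | ⟨h1, h2, h3⟩ | ⟨h1, h2, h3⟩
  · exact key _ _ _ hi hj hk ⟨h1, h2, h3⟩
  · exact key _ _ _ hj hi hk ⟨by rwa [dist_comm], h2, h3⟩
  · exact key _ _ _ hi hk hj ⟨h1, by rwa [dist_comm], h3⟩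

/-- **Complete answer.** For `δ > 0`, property `P δ` holds if and only if `δ ≥ 1`. Hence the
supremum `δ*` of the set of `δ > 0` for which `P δ` fails equals `1`, and it is not attained,
since `P 1` holds: there is no largest `δ` for which `P δ` fails. -/
theorem result :
    (∀ δ : ℝ, 0 < δ → (P δ ↔ 1 ≤ δ)) ∧ IsLUB {δ : ℝ | 0 < δ ∧ ¬ P δ} 1 ∧ P 1 := by
  have hiff : ∀ δ : ℝ, 0 < δ → (P δ ↔ 1 ≤ δ) := by
    intro δ hδ
    constructor
    · intro h
      by_contra hlt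
      exact not_P_of_lt δ hδ (not_le.1 hlt) h
    · exact P_of_one_le δ
  refine ⟨hiff, ⟨?_, ?_⟩, P_of_one_le 1 le_rfl⟩
  · rintro δ ⟨hδ, hP⟩
    rw [hiff δ hδ] at hP
    exact (not_le.1 hP).le
  · intro B hB
    by_contra hlt
    push Not at hlt
    have hhalf : (1 / 2 : ℝ) ≤ B := hB ⟨by norm_num, not_P_of_lt _ (by norm_num) (by norm_num)⟩
    have hmid : (B + 1) / 2 ≤ B := hB ⟨by linarith, not_P_of_lt _ (by linarith) (by linarith)⟩
    linarith

end Pool.Agent.Results.MP_8cfbc5_co.FullAnswer
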